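import Pool.Agent.Lib.MP_640417_ag.Gen4.Main
import Pool.Agent.Lib.MP_640417_ag.Zo.MainZ

/-!
# MP_640417_ag: almost all elements near the identity are good (zero-one law)
-/

set_option autoImplicit false

namespace Pool.Agent.Lib.MP_640417_ag.Gen4

open Matrix Module TensorProduct MeasureTheory Pool.Agent.Lib.MP_640417_ag
  Pool.Agent.Lib.MP_640417_ag.Frob
  Pool.Agent.Lib.MP_640417_ag.Glob Pool.Agent.Lib.MP_640417_ag.Four
  Pool.Agent.Lib.MP_640417_ag.Ctl Pool.Agent.Lib.MP_640417_ag.Ty Pool.Agent.Lib.MP_640417_ag.Gn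
  Pool.Agent.Lib.MP_640417_ag.Dt

section

variable (l : ℕ) [Fact l.Prime] {Γ : Type} [Group Γ]
    [TopologicalSpace Γ] [IsTopologicalGroup Γ] [CompactSpace Γ] {V : Type} [AddCommGroup V]
    [Module ℚ_[l] V] [FiniteDimensional ℚ_[l] V] (ρ : H1Rep Γ ℚ_[l] V)

/-- almost all elements are good, if everything in the commutant commutes with `Γ` and all matrices are close to the
identity -/
theorem ae_good_of_lef (hsemi : Semisimple ρ)
    (hfull : ∀ c, CommF ρ c → ∀ γ, c * ρ.T γ = ρ.T γ * c)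
    (hsm : ∀ γ, Sm (‖(l : ℚ_[l])‖ ^ 2) (LinearMap.toMatrix (Module.finBasis ℚ_[l] V)
      (Module.finBasis ℚ_[l] V) (ρ.T γ) - 1))
    (hE : ∃ X, Lefschetz ρ X ∧ IsUnit X) (h : LefCond ρ 4 2) [MeasurableSpace Γ] [BorelSpace Γ]
    (ν : Measure Γ) [ν.IsHaarMeasure] :
    ∃ O : Set Γ, IsOpen O ∧ ν Oᶜ = 0 ∧ ∀ γ ∈ O, Good ρ γ := by
  obtain ⟨R, h1, h2, h3⟩ := exists_coord ρ (Module.finBasis ℚ_[l] V)
  have hs := coord_semi ρ _ R h1 hsemi
  obtain ⟨X1, hX1, hX1u⟩ := hE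
  have h5 := (lef_coord l ρ _ R h1 h3 X1).mp hX1
  obtain ⟨O, hO, hOn, hOg⟩ := Zo.exists_full R (AlgebraicClosure ℚ_[l]) l (norm_l l) hs
    (full_coord ρ _ R h1 hfull) (by
      intro X hX hXc
      obtain ⟨Y, rfl⟩ := (LinearMap.toMatrix (Module.finBasis ℚ_[l] V)
        (Module.finBasis ℚ_[l] V)).surjective X
      have hY := (lef_coord l ρ _ R h1 h3 Y).mpr ⟨hX, hXc⟩
      exact mem_of_four l ρ _ R h1 h2 h3 hs Y hY.2 fun x hx hz => h x hx hz Y hY)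
    h5.1 h5.2 (by
      have h6 := (LinearMap.toMatrixAlgEquiv (Module.finBasis ℚ_[l] V)).toRingEquiv.toRingHom.isUnit_map hX1u
      exact ((Matrix.isUnit_iff_isUnit_det _).mp h6).ne_zero)
    (fun γ => by rw [h1]; exact hsm γ) ν
  exact ⟨O, hO, hOn, fun γ hγ => (good_iff ρ _ R h1 h2 h3 γ).mpr (hOg γ hγ)⟩

/-- **Almost all elements near the identity are good.** If all Tate classes of codimension two on `V^4` which are killed by
the central skew elements are killed by the Lefschetz Lie algebra, there is an open subgroup `U` and an open subset of `U`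
of full Haar measure, all of whose elements are good. -/
theorem ae_good (hsemi : Semisimple ρ) (hE : ∃ X, Lefschetz ρ X ∧ IsUnit X)
    (h : LefCond ρ 4 2) [MeasurableSpace Γ] [BorelSpace Γ] (ν : Measure Γ) [ν.IsHaarMeasure] :
    ∃ (U : OpenSubgroup Γ) (O : Set Γ), IsOpen O ∧ O ⊆ U ∧ ν ((U : Set Γ) \ O) = 0 ∧
      ∀ γ ∈ O, Good ρ γ := by
  obtain ⟨R, h1, h2, h3⟩ := exists_coord ρ (Module.finBasis ℚ_[l] V)
  obtain ⟨U0, hU0⟩ := exists_U0 ρ
  obtain ⟨U1, hU1⟩ := Glob.exists_U0 R (r := ‖(l : ℚ_[l])‖ ^ 2)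
    (pow_pos (norm_pos_iff.mpr (l_ne l)) 2) (pow_lt_one₀ (norm_nonneg _) (norm_l l) two_ne_zero)
  let U : OpenSubgroup Γ := U0 ⊓ U1
  have := topGroup_U U
  have := compact_U U
  have hoe : Topology.IsOpenEmbedding (Subtype.val : U → Γ) := U.isOpen.isOpenEmbedding_subtypeVal
  let ν' : Measure U := ν.comap Subtype.val
  have hν' : ν'.IsHaarMeasure :=
    Measure.IsHaarMeasure.comap (f := U.toSubgroup.subtype) (mH := inferInstance) ν hoe
  obtain ⟨O, hO, hOn, hOg⟩ := ae_good_of_lef l (res ρ U) (semi_res ρ U hsemi)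
    (fun c hc γ => (hU0 γ.1).mp γ.2.1 c ((commF_res ρ U c).mp hc))
    (fun γ => by
      have h4 := (hU1 γ.1).mp γ.2.2
      rw [h1] at h4
      exact h4)
    (by
      obtain ⟨X, hX, hXu⟩ := hE
      exact ⟨X, (lefschetz_res ρ U X).mpr hX, hXu⟩) ((lef_res l ρ U 4 2).mpr h) ν'
  refine ⟨U, (Subtype.val : U → Γ) '' O, U.isOpen.isOpenMap_subtype_val O hO, ?_, ?_, ?_⟩
  · rintro _ ⟨γ, -, rfl⟩
    exact γ.2
  · have h4 : ((U : Set Γ) \ (Subtype.val : U → Γ) '' O) = (Subtype.val : U → Γ) '' Oᶜ := by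
      ext γ
      constructor
      · rintro ⟨h5, h6⟩
        exact ⟨⟨γ, h5⟩, fun h7 => h6 ⟨_, h7, rfl⟩, rfl⟩
      · rintro ⟨γ', h5, rfl⟩
        refine ⟨γ'.2, ?_⟩
        rintro ⟨γ'', h6, h7⟩
        exact h5 (Subtype.val_injective h7 ▸ h6)
    rw [h4, ← hoe.measurableEmbedding.comap_apply]
    exact hOn
  · rintro _ ⟨γ, hγ, rfl⟩
    exact (goodG_res ρ U γ).mp (hOg γ hγ)

/-- **The local-global principle with the zero-one law, all types.** -/
theorem tfae_ae (hsemi : Semisimple ρ) (hE : ∃ X, Lefschetz ρ X ∧ IsUnit X)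
    [MeasurableSpace Γ] [BorelSpace Γ] (ν : Measure Γ) [ν.IsHaarMeasure] :
    List.TFAE [∀ n i, LefCond ρ n i, LefCond ρ 4 2,
      ∀ D : Set Γ, Dense D → ∃ γ ∈ D, Good ρ γ,
      ∃ (U : OpenSubgroup Γ) (O : Set Γ), IsOpen O ∧ O ⊆ U ∧ ν ((U : Set Γ) \ O) = 0 ∧
        ∀ γ ∈ O, Good ρ γ,
      ∃ γ, Detects ρ γ] := by
  have h0 := tfae_all l ρ hsemi hE
  tfae_have 1 → 2 := fun h => h 4 2
  tfae_have 2 → 3 := fun h => (h0.out 1 2 rfl rfl).mp h
  tfae_have 3 → 5 := fun h => (h0.out 2 3 rfl rfl).mp h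
  tfae_have 5 → 1 := fun h => (h0.out 3 0 rfl rfl).mp h
  tfae_have 2 → 4 := fun h => ae_good l ρ hsemi hE h ν
  tfae_have 4 → 5 := by
    rintro ⟨U, O, hO, hOU, hν, hg⟩
    have hne : O.Nonempty := by
      by_contra h1
      rw [Set.not_nonempty_iff_eq_empty] at h1
      rw [h1, Set.sdiff_empty] at hν
      exact (U.isOpen.measure_pos ν ⟨1, U.one_mem⟩).ne' hν
    obtain ⟨γ, hγ⟩ := hne
    obtain ⟨R, h1, h2, h3⟩ := exists_coord ρ (Module.finBasis ℚ_[l] V)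
    have hs := coord_semi ρ _ R h1 hsemi
    exact ⟨γ, (detects_iff ρ _ R h1 h2 h3 γ).mpr
      (detects_of_goodM R _ hs ((good_iff ρ _ R h1 h2 h3 γ).mp (hg γ hγ)))⟩
  tfae_finish

end

end Pool.Agent.Lib.MP_640417_ag.Gen4
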