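import Pool.Agent.Lib.MP_640417_ag.Ctl.CoordD
import Pool.Agent.Lib.MP_640417_ag.Ctl.Defs
import Pool.Agent.Lib.MP_640417_ag.Glob.Div

/-!
# MP_640417_ag, Gen4, module DivK (220 lines): the Lefschetz Lie algebra kills the divisor algebra

The infinitesimal version of `div_inv` (`Glob/Div.lean`, copy the private lemmas and the proof; replace `map S` by the derivation `Dv n X`).
* `Dv n X` is a derivation (`isDer_Dv` in `Four/Der.lean`; product rule for even elements), so it suffices to kill the Tate classes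
  `x ∈ ⋀²` (the elements killed by it form a subalgebra: for products of arbitrary elements use the sign rule of `IsDer`, or note that
  `IsDer D s` means `D (ι w * x) = ι (s w) * x + ι w * D x`, which gives the Leibniz rule `D (x y) = D x y + x D y` in general by
  induction on `x`).
* For `x` of degree 2 in coordinates (`V = I → F`): `x = ∑ w a b i j • (e_(a,i) ∧ e_(b,j))`, `w b a j i = - w a b i j`; `c = (w a b) J` is in
  the commutant, so `X c = c X`; `D` acts by `w a b ↦ X (w a b) + (w a b) Xᵀ`, and `w = c J⁻¹`, `J⁻¹ Xᵀ = - X J⁻¹`, so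
  `X w + w Xᵀ = X c J⁻¹ - c X J⁻¹ = 0`.
* `div_killed`: from coordinates to `V` with `coord_dv` of `Ctl/CoordD.lean` for the generators (Tate classes of codimension 1), and the
  Leibniz rule (`Algebra.adjoin_induction`).
-/

set_option autoImplicit false

namespace Pool.Agent.Lib.MP_640417_ag.Gen4

open Matrix Module Pool.Agent.Lib.MP_640417_ag Pool.Agent.Lib.MP_640417_ag.Frob
  Pool.Agent.Lib.MP_640417_ag.Glob Pool.Agent.Lib.MP_640417_ag.Four
  Pool.Agent.Lib.MP_640417_ag.Ctl

section two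

variable {I : Type} [Fintype I] [DecidableEq I]

variable {K : Type} [Field K] {n : ℕ}

/-- two coordinates -/
private def cp (K : Type) [Field K] {n : ℕ} {I : Type} (k l : Fin n × I) :
    (Fin n → I → K) →ₗ[K] (Fin 2 → K) where
  toFun v := ![v k.1 k.2, v l.1 l.2]
  map_add' v w := by
    ext m
    fin_cases m <;> simp
  map_smul' c v := by
    ext m
    fin_cases m <;> simp

/-- the coordinate functional of a product of two vectors -/
private noncomputable def Dd (k l : Fin n × I) : ExteriorAlgebra K (Fin n → I → K) →ₗ[K] K :=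
  ExteriorAlgebra.liftAlternating (R := K) (M := Fin n → I → K) (N := K)
    (Function.update (fun _ => 0) 2
      ((Matrix.detRowAlternating (n := Fin 2) (R := K)).compLinearMap (cp K k l)))

private theorem Dd_apply (k l : Fin n × I) (v w : Fin n → I → K) :
    Dd k l (ExteriorAlgebra.ι K v * ExteriorAlgebra.ι K w) =
      v k.1 k.2 * w l.1 l.2 - w k.1 k.2 * v l.1 l.2 := by
  have h1 : ExteriorAlgebra.ι K v * ExteriorAlgebra.ι K w = ExteriorAlgebra.ιMulti K 2 ![v, w] := by
    rw [ExteriorAlgebra.ιMulti_apply]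
    simp [List.ofFn_succ]
  rw [h1]
  unfold Dd
  rw [ExteriorAlgebra.liftAlternating_apply_ιMulti, Function.update_self,
    AlternatingMap.compLinearMap_apply]
  have h2 : ∀ M : Fin 2 → Fin 2 → K, Matrix.detRowAlternating M = Matrix.det (Matrix.of M) :=
    fun M => rfl
  rw [h2, Matrix.det_fin_two]
  simp [cp, mul_comm]

/-- induction over products of two vectors -/
private theorem two_ind {V : Type} [AddCommGroup V] [Module K V]
    {P : ExteriorAlgebra K V → Prop}
    (hm : ∀ v w : V, P (ExteriorAlgebra.ι K v * ExteriorAlgebra.ι K w))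
    (ha : ∀ x y, P x → P y → P (x + y)) {x : ExteriorAlgebra K V} (hx : x ∈ ⋀[K]^2 V) : P x := by
  have hx' : x ∈ LinearMap.range (ExteriorAlgebra.ι K (M := V)) *
      LinearMap.range (ExteriorAlgebra.ι K (M := V)) := by
    rw [← pow_two]
    exact hx
  refine Submodule.mul_induction_on hx' ?_ ha
  rintro _ ⟨v, rfl⟩ _ ⟨w, rfl⟩
  exact hm v w

private theorem toLin_apply (S : Matrix I I K) (v : Fin n → I → K) (a : Fin n) (i : I) :
    (Matrix.toLin' S).compLeft (Fin n) v a i = ∑ j, S i j * v a j := by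
  rw [LinearMap.compLeft_apply, Function.comp_apply, Matrix.toLin'_apply]
  rfl

/-- the coordinates of the image -/
private theorem Dd_map (S : Matrix I I K) (a b : Fin n) (i j : I)
    {x : ExteriorAlgebra K (Fin n → I → K)} (hx : x ∈ ⋀[K]^2 (Fin n → I → K)) :
    Dd (a, i) (b, j) (ExteriorAlgebra.map ((Matrix.toLin' S).compLeft (Fin n)) x) =
      ∑ i', ∑ j', S i i' * Dd (a, i') (b, j') x * S j j' := by
  refine two_ind (P := fun x => Dd (a, i) (b, j)
    (ExteriorAlgebra.map ((Matrix.toLin' S).compLeft (Fin n)) x) =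
      ∑ i', ∑ j', S i i' * Dd (a, i') (b, j') x * S j j') ?_ ?_ hx
  · intro v w
    rw [map_mul, ExteriorAlgebra.map_apply_ι, ExteriorAlgebra.map_apply_ι, Dd_apply]
    simp only [Dd_apply, toLin_apply]
    rw [Finset.sum_mul_sum, Finset.sum_mul_sum, ← Finset.sum_sub_distrib]
    refine Finset.sum_congr rfl fun i' _ => ?_
    rw [← Finset.sum_sub_distrib]
    refine Finset.sum_congr rfl fun j' _ => ?_
    ring
  · intro x y hx hy
    simp only [map_add, hx, hy, mul_add, add_mul, Finset.sum_add_distrib]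

private theorem vec_eq (v : Fin n → I → K) :
    ExteriorAlgebra.ι K v = ∑ k : Fin n × I, v k.1 k.2 •
      ExteriorAlgebra.ι K (Pi.single k.1 (Pi.single k.2 (1 : K)) : Fin n → I → K) := by
  simp only [← map_smul, ← map_sum]
  congr 1
  funext a i
  rw [Finset.sum_apply, Finset.sum_apply, Fintype.sum_prod_type, Finset.sum_eq_single a]
  · rw [Finset.sum_eq_single i]
    · simp
    · intro j _ hj
      simp [Pi.single_eq_of_ne (Ne.symm hj)]
    · intro h
      exact absurd (Finset.mem_univ _) h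
  · intro b _ hb
    refine Finset.sum_eq_zero fun j _ => ?_
    simp [Pi.single_eq_of_ne (Ne.symm hb)]
  · intro h
    exact absurd (Finset.mem_univ _) h

/-- an element of degree two is determined by its coordinates -/
private theorem two_rep {x : ExteriorAlgebra K (Fin n → I → K)}
    (hx : x ∈ ⋀[K]^2 (Fin n → I → K)) :
    x + x = ∑ k : Fin n × I, ∑ l : Fin n × I, Dd k l x •
      (ExteriorAlgebra.ι K (Pi.single k.1 (Pi.single k.2 (1 : K)) : Fin n → I → K) *
        ExteriorAlgebra.ι K (Pi.single l.1 (Pi.single l.2 (1 : K)) : Fin n → I → K)) := by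
  refine two_ind (P := fun x => x + x = ∑ k : Fin n × I, ∑ l : Fin n × I, Dd k l x •
      (ExteriorAlgebra.ι K (Pi.single k.1 (Pi.single k.2 (1 : K)) : Fin n → I → K) *
        ExteriorAlgebra.ι K (Pi.single l.1 (Pi.single l.2 (1 : K)) : Fin n → I → K))) ?_ ?_ hx
  · intro v w
    simp only [Dd_apply, sub_smul, Finset.sum_sub_distrib]
    have h1 : ∀ v w : Fin n → I → K, ∑ k : Fin n × I, ∑ l : Fin n × I,
        (v k.1 k.2 * w l.1 l.2) •
        (ExteriorAlgebra.ι K (Pi.single k.1 (Pi.single k.2 (1 : K)) : Fin n → I → K) *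
          ExteriorAlgebra.ι K (Pi.single l.1 (Pi.single l.2 (1 : K)) : Fin n → I → K)) =
        ExteriorAlgebra.ι K v * ExteriorAlgebra.ι K w := by
      intro v w
      conv_rhs => rw [vec_eq v, vec_eq w, Finset.sum_mul_sum]
      refine Finset.sum_congr rfl fun k _ => Finset.sum_congr rfl fun l _ => ?_
      rw [smul_mul_assoc, mul_smul_comm, smul_smul]
    rw [h1 v w, h1 w v]
    have h3 := ExteriorAlgebra.ι_add_mul_swap (R := K) v w
    rw [eq_sub_iff_add_eq, add_assoc, h3, add_zero]
  · intro x y hx hy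
    have e : x + y + (x + y) = (x + x) + (y + y) := by abel
    rw [e, hx, hy]
    simp only [map_add, add_smul, Finset.sum_add_distrib]

/-- the matrix of coordinates for two copies -/
private noncomputable def ww (x : ExteriorAlgebra K (Fin n → I → K)) (a b : Fin n) :
    Matrix I I K := Matrix.of fun i j => Dd (a, i) (b, j) x

private theorem ww_map (S : Matrix I I K) (a b : Fin n)
    {x : ExteriorAlgebra K (Fin n → I → K)} (hx : x ∈ ⋀[K]^2 (Fin n → I → K)) :
    ww (ExteriorAlgebra.map ((Matrix.toLin' S).compLeft (Fin n)) x) a b =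
      S * ww x a b * Sᵀ := by
  ext i j
  unfold ww
  rw [Matrix.of_apply, Dd_map S a b i j hx, Matrix.mul_apply, Finset.sum_comm]
  refine Finset.sum_congr rfl fun j' _ => ?_
  rw [Matrix.mul_apply, Finset.sum_mul]
  rfl

/-- the derivation on a product of two vectors -/
private theorem der_ιι {V : Type} [AddCommGroup V] [Module K V]
    {D : Module.End K (ExteriorAlgebra K V)} {s : Module.End K V} (h : IsDer D s) (v w : V) :
    D (ExteriorAlgebra.ι K v * ExteriorAlgebra.ι K w) =
      ExteriorAlgebra.ι K (s v) * ExteriorAlgebra.ι K w +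
        ExteriorAlgebra.ι K v * ExteriorAlgebra.ι K (s w) := by
  have h1 : D (ExteriorAlgebra.ι K w) = ExteriorAlgebra.ι K (s w) := by
    have h2 := h.2 w 1
    have h3 := h.1 1
    rw [map_one] at h3
    rw [mul_one, mul_one, h3, mul_zero, add_zero] at h2
    exact h2
  rw [h.2, h1]


/-- the derivation preserves degree two -/
private theorem der_two {V : Type} [AddCommGroup V] [Module K V]
    {D : Module.End K (ExteriorAlgebra K V)} {s : Module.End K V} (h : IsDer D s)
    {x : ExteriorAlgebra K V} (hx : x ∈ ⋀[K]^2 V) : D x ∈ ⋀[K]^2 V := by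
  refine two_ind (P := fun x => D x ∈ ⋀[K]^2 V) ?_ ?_ hx
  · intro v w
    rw [der_ιι h]
    refine Submodule.add_mem _ ?_ ?_
    · show _ ∈ (LinearMap.range (ExteriorAlgebra.ι K (M := V))) ^ 2
      rw [pow_two]
      exact Submodule.mul_mem_mul ⟨_, rfl⟩ ⟨_, rfl⟩
    · show _ ∈ (LinearMap.range (ExteriorAlgebra.ι K (M := V))) ^ 2
      rw [pow_two]
      exact Submodule.mul_mem_mul ⟨_, rfl⟩ ⟨_, rfl⟩
  · intro x y hx hy
    rw [map_add]
    exact Submodule.add_mem _ hx hy

private theorem Dd_der {D : Module.End K (ExteriorAlgebra K (Fin n → I → K))} (S : Matrix I I K)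
    (h : IsDer D ((Matrix.toLin' S).compLeft (Fin n))) (a b : Fin n) (i j : I)
    {x : ExteriorAlgebra K (Fin n → I → K)} (hx : x ∈ ⋀[K]^2 (Fin n → I → K)) :
    Dd (a, i) (b, j) (D x) =
      ∑ i', S i i' * Dd (a, i') (b, j) x + ∑ j', Dd (a, i) (b, j') x * S j j' := by
  refine two_ind (P := fun x => Dd (a, i) (b, j) (D x) =
      ∑ i', S i i' * Dd (a, i') (b, j) x + ∑ j', Dd (a, i) (b, j') x * S j j') ?_ ?_ hx
  · intro v w
    rw [der_ιι h, map_add, Dd_apply, Dd_apply]
    simp only [Dd_apply, toLin_apply]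
    have e1 : ∀ z : K, ∀ u : I → K, (∑ i', u i') * z = ∑ i', u i' * z :=
      fun z u => Finset.sum_mul _ _ _
    simp only [mul_sub, sub_mul, Finset.sum_sub_distrib, Finset.sum_mul, Finset.mul_sum]
    have e2 : ∀ x : I, S i x * v a x * w b j = S i x * (v a x * w b j) := fun x => by ring
    have e3 : ∀ x : I, w a i * (S j x * v b x) = w a i * v b x * S j x := fun x => by ring
    have e4 : ∀ x : I, S i x * w a x * v b j = S i x * (w a x * v b j) := fun x => by ring
    have e5 : ∀ x : I, v a i * (S j x * w b x) = v a i * w b x * S j x := fun x => by ring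
    simp only [e2, e3, e4, e5]
    ring
  · intro x y hx hy
    simp only [map_add, hx, hy, mul_add, add_mul, Finset.sum_add_distrib]
    ring

private theorem ww_der {D : Module.End K (ExteriorAlgebra K (Fin n → I → K))} (S : Matrix I I K)
    (h : IsDer D ((Matrix.toLin' S).compLeft (Fin n))) (a b : Fin n)
    {x : ExteriorAlgebra K (Fin n → I → K)} (hx : x ∈ ⋀[K]^2 (Fin n → I → K)) :
    ww (D x) a b = S * ww x a b + ww x a b * Sᵀ := by
  ext i j
  unfold ww
  rw [Matrix.of_apply, Dd_der S h a b i j hx, Matrix.add_apply, Matrix.mul_apply,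
    Matrix.mul_apply]
  rfl

private theorem killed_of_ww [CharZero K]
    {D : Module.End K (ExteriorAlgebra K (Fin n → I → K))} (S : Matrix I I K)
    (h : IsDer D ((Matrix.toLin' S).compLeft (Fin n)))
    {x : ExteriorAlgebra K (Fin n → I → K)} (hx : x ∈ ⋀[K]^2 (Fin n → I → K))
    (h0 : ∀ a b, S * ww x a b + ww x a b * Sᵀ = 0) : D x = 0 := by
  have h2 := two_rep (der_two h hx)
  have h3 : ∀ k l : Fin n × I, Dd k l (D x) = 0 := by
    intro k l
    have e1 := ww_der S h k.1 l.1 hx
    rw [h0] at e1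
    exact congrFun (congrFun e1 k.2) l.2
  simp only [h3, zero_smul, Finset.sum_const_zero] at h2
  have h4 : (2 : K) • D x = (2 : K) • 0 := by
    rw [two_smul, h2, smul_zero]
  exact (smul_right_injective _ (two_ne_zero (α := K))) h4

/-- the Leibniz rule -/
private theorem leibniz {V : Type} [AddCommGroup V] [Module K V]
    {D : Module.End K (ExteriorAlgebra K V)} {s : Module.End K V} (h : IsDer D s)
    (x y : ExteriorAlgebra K V) : D (x * y) = D x * y + x * D y := by
  induction x using CliffordAlgebra.left_induction with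
  | algebraMap r =>
    have h1 := h.1 r
    have h2 : (algebraMap K (CliffordAlgebra (0 : QuadraticForm K V)) r) * y = r • y :=
      (Algebra.smul_def r y).symm
    have h3 : (algebraMap K (CliffordAlgebra (0 : QuadraticForm K V)) r) * D y = r • D y :=
      (Algebra.smul_def r (D y)).symm
    rw [h2, map_smul]
    erw [h1]
    rw [zero_mul, zero_add, h3]
  | add x z hx hz => rw [add_mul, map_add, hx, hz, map_add, add_mul, add_mul]; abel
  | ι_mul x m hx =>
    have h1 := h.2 m x
    have h2 := h.2 m (x * y)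
    change D (ExteriorAlgebra.ι K m * x * y) = D (ExteriorAlgebra.ι K m * x) * y +
      ExteriorAlgebra.ι K m * x * D y
    rw [mul_assoc, h2, hx, h1, mul_add, add_mul]
    simp only [mul_assoc]
    abel

end two


theorem div_killed_coord {F : Type} [NontriviallyNormedField F] [CharZero F] {I : Type}
    [Fintype I] [DecidableEq I] {Γ : Type} [Group Γ] [TopologicalSpace Γ] (ρ : MRep Γ F I) (n : ℕ)
    (X : Matrix I I F) (hX : X ∈ spJ ρ.J) (hC : ∀ c : Matrix I I F, ρ.InC c → X * c = c * X)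
    (x : ExteriorAlgebra F (Fin n → I → F)) (hx : TateClass (ρ.act n) (ρ.μ⁻¹) 1 x) :
    Dv n (Matrix.toLin' X) x = 0 := by
  have hu : IsUnit ρ.J.det := isUnit_iff_ne_zero.mpr ρ.det
  obtain ⟨hy2, U, hU⟩ := hx
  have hy : x ∈ ⋀[F]^2 (Fin n → I → F) := hy2
  refine killed_of_ww X (isDer_Dv n (Matrix.toLin' X)) hy fun a b => ?_
  -- the matrix commutes with an open subgroup
  have h1 : ρ.InC (ww x a b * ρ.J) := by
    refine ⟨U, fun γ hγ => ?_⟩
    have e1 := hU γ hγ
    have e0 : ((ρ.μ γ : Fˣ) : F) ≠ 0 := (ρ.μ γ).ne_zero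
    have e2 : ExteriorAlgebra.map ((Matrix.toLin' (ρ.M γ)).compLeft (Fin n)) x =
        ((ρ.μ γ : Fˣ) : F) • x := by
      have e3 : ((ρ.μ⁻¹ γ : Fˣ) : F) = ((ρ.μ γ : Fˣ) : F)⁻¹ := by
        rw [MonoidHom.inv_apply, Units.val_inv_eq_inv_val]
      rw [e3, pow_one] at e1
      have e4 : ((ρ.μ γ : Fˣ) : F) • x = ((ρ.μ γ : Fˣ) : F) • (((ρ.μ γ : Fˣ) : F)⁻¹ •
          ExteriorAlgebra.map (ρ.act n γ) x) := by rw [e1]
      rw [e4, smul_smul, mul_inv_cancel₀ e0, one_smul]
      rfl
    have e5 := ww_map (ρ.M γ) a b hy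
    rw [e2] at e5
    have e6 : ww (((ρ.μ γ : Fˣ) : F) • x) a b = ((ρ.μ γ : Fˣ) : F) • ww x a b := by
      ext i j
      simp [ww]
    rw [e6] at e5
    have e7 := ρ.eq γ
    have e8 : ((ρ.μ γ : Fˣ) : F) • (ρ.M γ * (ww x a b * ρ.J)) =
        ((ρ.μ γ : Fˣ) : F) • (ww x a b * ρ.J * ρ.M γ) := by
      calc ((ρ.μ γ : Fˣ) : F) • (ρ.M γ * (ww x a b * ρ.J))
          = ρ.M γ * ww x a b * (((ρ.μ γ : Fˣ) : F) • ρ.J) := by
            rw [Matrix.mul_smul, Matrix.mul_assoc]
        _ = ρ.M γ * ww x a b * ((ρ.M γ)ᵀ * ρ.J * ρ.M γ) := by rw [e7]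
        _ = (ρ.M γ * ww x a b * (ρ.M γ)ᵀ) * (ρ.J * ρ.M γ) := by
            simp only [Matrix.mul_assoc]
        _ = ((ρ.μ γ : Fˣ) : F) • (ww x a b * ρ.J * ρ.M γ) := by
            rw [← e5, Matrix.smul_mul, Matrix.mul_assoc]
    exact smul_right_injective _ e0 e8
  have h2 := hC _ h1
  have hS : Xᵀ * ρ.J + ρ.J * X = 0 := mem_spJ.1 hX
  have h3 : (X * ww x a b + ww x a b * Xᵀ) * ρ.J = 0 := by
    have e1 : Xᵀ * ρ.J = -(ρ.J * X) := eq_neg_of_add_eq_zero_left hS
    rw [Matrix.add_mul, Matrix.mul_assoc X, h2, Matrix.mul_assoc (ww x a b) Xᵀ, e1,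
      Matrix.mul_neg, Matrix.mul_assoc, add_neg_cancel]
  calc X * ww x a b + ww x a b * Xᵀ = (X * ww x a b + ww x a b * Xᵀ) * ρ.J * ρ.J⁻¹ := by
        rw [Matrix.mul_assoc, Matrix.mul_nonsing_inv _ hu, Matrix.mul_one]
    _ = 0 := by rw [h3, Matrix.zero_mul]

section coord

variable {F : Type} [NontriviallyNormedField F] {I : Type} [Fintype I] [DecidableEq I]
  {Γ : Type} [Group Γ] [TopologicalSpace Γ] {V : Type} [AddCommGroup V] [Module F V]
  [FiniteDimensional F V]

private theorem dk_skew (ρ : H1Rep Γ F V) (e : Basis I F V) (R : MRep Γ F I)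
    (h3 : ∀ i j, R.J i j = ρ.form (e i) (e j)) (X : Module.End F V)
    (h0 : ∀ x y, ρ.form (X x) y + ρ.form x (X y) = 0) :
    LinearMap.toMatrix e e X ∈ spJ R.J := by
  have hJ : R.J = LinearMap.BilinForm.toMatrix e ρ.form := by
    ext i j
    rw [h3, LinearMap.BilinForm.toMatrix_apply]
  have h : (LinearMap.toMatrix e e X)ᵀ * R.J + R.J * LinearMap.toMatrix e e X =
      LinearMap.BilinForm.toMatrix e (LinearMap.BilinForm.compLeft ρ.form X +
        LinearMap.BilinForm.compRight ρ.form X) := by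
    rw [map_add, LinearMap.BilinForm.toMatrix_compLeft, LinearMap.BilinForm.toMatrix_compRight, hJ]
  show (LinearMap.toMatrix e e X)ᵀ * R.J + R.J * LinearMap.toMatrix e e X = 0
  rw [h, LinearEquiv.map_eq_zero_iff]
  exact LinearMap.ext fun x => LinearMap.ext fun y => h0 x y

private theorem dk_inC (ρ : H1Rep Γ F V) (e : Basis I F V) (R : MRep Γ F I)
    (h1 : ∀ γ, R.M γ = LinearMap.toMatrix e e (ρ.T γ)) (c : Module.End F V)
    (h : R.InC (LinearMap.toMatrix e e c)) :
    ∃ U : OpenSubgroup Γ, ∀ γ ∈ U, c * ρ.T γ = ρ.T γ * c := by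
  obtain ⟨U, hU⟩ := h
  refine ⟨U, fun γ hγ => ?_⟩
  apply (LinearMap.toMatrixAlgEquiv e).injective
  rw [map_mul, map_mul]
  have h2 := hU γ hγ
  rw [h1] at h2
  exact h2.symm

end coord

theorem div_killed {F : Type} [NontriviallyNormedField F] [CharZero F]
    {Γ : Type} [Group Γ] [TopologicalSpace Γ] {V : Type} [AddCommGroup V] [Module F V]
    [FiniteDimensional F V] (ρ : H1Rep Γ F V) (n : ℕ) (X : Module.End F V) (hX : Lefschetz ρ X)
    (x : ExteriorAlgebra F (Fin n → V))
    (hx : x ∈ divisorAlg (fun γ => (ρ.T γ).compLeft (Fin n)) ρ.χ) : Dv n X x = 0 := by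
  obtain ⟨R, h1, h2, h3⟩ := exists_coord ρ (Module.finBasis F V)
  have hD := isDer_Dv n X
  refine Algebra.adjoin_induction (p := fun x _ => Dv n X x = 0) ?_ ?_ ?_ ?_ hx
  · intro y hy
    obtain ⟨z, hz, hz2⟩ := coord_dv ρ (Module.finBasis F V) R h1 h2 n 1 y hy
    rw [← hz2]
    refine div_killed_coord R n _ (dk_skew ρ _ R h3 X hX.2) ?_ z hz
    intro c hc
    obtain ⟨c', rfl⟩ := (LinearMap.toMatrix (Module.finBasis F V) (Module.finBasis F V)).surjective c
    have h4 := congrArg (LinearMap.toMatrixAlgEquiv (Module.finBasis F V))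
      (hX.1 c' (dk_inC ρ _ R h1 c' hc))
    rw [map_mul, map_mul] at h4
    exact h4
  · exact hD.1
  · intro y z _ _ hy hz
    rw [map_add, hy, hz, add_zero]
  · intro y z _ _ hy hz
    rw [leibniz hD, hy, hz, zero_mul, mul_zero, add_zero]

end Pool.Agent.Lib.MP_640417_ag.Gen4
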