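import Pool.Agent.Lib.MP_640417_ag.Gen4.InvK
import Pool.Agent.Lib.MP_640417_ag.Lef.Units
import Pool.Agent.Lib.MP_640417_ag.Lef.Eps
import Pool.Agent.Lib.MP_640417_ag.Lef.RegL
import Pool.Agent.Lib.MP_640417_ag.Ctl.Defs
import Pool.Agent.Lib.MP_640417_ag.Gn.ResG
import Pool.Agent.Lib.MP_640417_ag.Dfr.HasSys

/-!
# MP_640417_ag, Gen4, module InvF (150 lines): an invertible element of the Lefschetz Lie algebra

* `exists_inv_full`: `exists_sys` (`Lef/Eps.lean`; with `hfull` the conditions `CommF` become `∀ γ, c * T γ = T γ * c`), `exists_uv`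
  (`Lef/Units.lean`, with `reg_L`, `adjC_L` of `Lef/RegL.lean`), `inv_K` give `X` over `K = AlgebraicClosure F`, skew, commuting with
  `cenK K T`, invertible. By `sum_cp` (`Four/Span.lean`) `X = ∑ t, b t • (X_t).baseChange K` with `X_t = cp (b.coord t) X`, a finite sum
  (`b` a basis of `K` over `F`); the `X_t` are skew and commute with all `c` with `CommF ρ c` (`cp_mul_baseChange`, `cp_baseChange_mul`,
  as in step 2 of `Lef/Eps.lean`). The determinant of `∑ t, y t • X_t` is a polynomial in the `y t` (in coordinates: `Matrix.det` of a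
  combination of matrices) with coefficients in `F`; it is not zero at `y t = b t ∈ K`, so it is not the zero polynomial, and there are
  `y t ∈ F` where it is not zero (`MvPolynomial.funext`, `F` infinite).
* `exists_inv`: the open subgroup `exists_U0` (`Ty/Res.lean`) commutes with the commutant; `res ρ U`, `semi_res`, `lefschetz_res`,
  `commF_res`.
-/

set_option autoImplicit false

namespace Pool.Agent.Lib.MP_640417_ag.Gen4

open Module TensorProduct Pool.Agent.Lib.MP_640417_ag Pool.Agent.Lib.MP_640417_ag.Frob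
  Pool.Agent.Lib.MP_640417_ag.Four Pool.Agent.Lib.MP_640417_ag.Ty
  Pool.Agent.Lib.MP_640417_ag.Lef Pool.Agent.Lib.MP_640417_ag.Ctl
  Pool.Agent.Lib.MP_640417_ag.Gn Pool.Agent.Lib.MP_640417_ag.Dfr

variable {Γ : Type} [Group Γ] [TopologicalSpace Γ] {F : Type} [NontriviallyNormedField F]
  [CharZero F] {V : Type} [AddCommGroup V] [Module F V] [FiniteDimensional F V]

/-- If a combination over `K` of matrices over `F` is invertible, so is a combination over `F`. -/
private theorem exists_comb {F K : Type} [Field F] [Infinite F] [Field K] [Algebra F K]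
    {n : Type} [Fintype n] [DecidableEq n] {ι : Type} (τ : Finset ι) (M : ι → Matrix n n F)
    (b : ι → K) (h : (∑ t ∈ τ, b t • (M t).map (algebraMap F K)).det ≠ 0) :
    ∃ y : ι → F, (∑ t ∈ τ, y t • M t).det ≠ 0 := by
  classical
  by_contra hcon
  push Not at hcon
  let P : MvPolynomial ι F :=
    (∑ t ∈ τ, (MvPolynomial.X t : MvPolynomial ι F) • (M t).map MvPolynomial.C).det
  have hev : ∀ (R : Type) [CommRing R] (φ : MvPolynomial ι F →+* R),
      φ P = (∑ t ∈ τ, φ (MvPolynomial.X t) • (M t).map (fun a => φ (MvPolynomial.C a))).det := by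
    intro R _ φ
    rw [show φ P = (φ.mapMatrix (∑ t ∈ τ, (MvPolynomial.X t : MvPolynomial ι F) •
      (M t).map MvPolynomial.C)).det from RingHom.map_det φ _, map_sum]
    congr 1
    refine Finset.sum_congr rfl fun t _ => ?_
    ext i j
    simp [RingHom.mapMatrix_apply, Matrix.map_apply, Matrix.smul_apply]
  have hP : P = 0 := by
    apply MvPolynomial.funext
    intro y
    rw [map_zero, hev F (MvPolynomial.eval y)]
    rw [← hcon y]
    congr 1
    refine Finset.sum_congr rfl fun t _ => ?_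
    ext i j
    simp [Matrix.map_apply]
  apply h
  have h1 := hev K (MvPolynomial.eval₂Hom (algebraMap F K) b)
  rw [hP, map_zero] at h1
  rw [h1]
  congr 1
  refine Finset.sum_congr rfl fun t _ => ?_
  ext i j
  simp [Matrix.map_apply]

theorem exists_inv_full_of (ρ : H1Rep Γ F V) (hss : Semisimple ρ) (h3 : HasSys ρ)
    (hfull : ∀ c, CommF ρ c → ∀ γ, c * ρ.T γ = ρ.T γ * c) :
    ∃ X, Lefschetz ρ X ∧ IsUnit X := by
  classical
  have haltK := alt_baseChange (AlgebraicClosure F) ρ.form ρ.form_alt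
  have hndK : ∀ x, (∀ y, ρ.form.baseChange (AlgebraicClosure F) x y = 0) → x = 0 := fun x hx =>
    nondeg_baseChange (AlgebraicClosure F) ρ.form ρ.form_alt ρ.form_nondeg x hx
  obtain ⟨N, st, r, ε, u, v, hS, hUV⟩ := exists_data_of ρ hss h3 hfull
  rw [comK_eq ρ hfull] at hS hUV
  obtain ⟨X, hX1, hX2, hX3⟩ := inv_K haltK hndK hS hUV
  let b := Module.Free.chooseBasis F (AlgebraicClosure F)
  obtain ⟨τ, hτ⟩ := sum_cp b X
  -- the coordinates are in the Lefschetz Lie algebra
  have hLef : ∀ t, Lefschetz ρ (cp (b.coord t) X) := by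
    intro t
    refine ⟨?_, ?_⟩
    · intro c hc
      have e1 : c.baseChange (AlgebraicClosure F) ∈ cenK (AlgebraicClosure F) ρ.T := by
        rw [cenK, Subalgebra.mem_centralizer_iff]
        rintro _ ⟨γ, rfl⟩
        have e2 := congrArg (fun g : Module.End F V => g.baseChange (AlgebraicClosure F))
          (hfull c hc γ)
        simp only [LinearMap.baseChange_mul] at e2
        exact e2.symm
      rw [← cp_mul_baseChange, hX2 _ e1, cp_baseChange_mul]
    · intro x y
      have hanti : ∀ x y, ρ.form x y = -ρ.form y x := fun x y => Darboux_anti ρ.form_alt y x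
      have hantiK : ∀ x y, ρ.form.baseChange (AlgebraicClosure F) x y =
        -ρ.form.baseChange (AlgebraicClosure F) y x := fun x y => Darboux_anti haltK y x
      rw [hanti x, form_cp, form_cp, ← sub_eq_add_neg, ← map_sub]
      have e1 := hX1 ((1 : AlgebraicClosure F) ⊗ₜ[F] x) ((1 : AlgebraicClosure F) ⊗ₜ[F] y)
      rw [hantiK ((1 : AlgebraicClosure F) ⊗ₜ[F] x), ← sub_eq_add_neg] at e1
      rw [e1, map_zero]
  let e := Module.finBasis F V
  haveI : Infinite F := inferInstance
  have hdet : (∑ t ∈ τ, b t • (LinearMap.toMatrix e e (cp (b.coord t) X)).map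
      (algebraMap F (AlgebraicClosure F))).det ≠ 0 := by
    have e1 : ∑ t ∈ τ, b t • (LinearMap.toMatrix e e (cp (b.coord t) X)).map
        (algebraMap F (AlgebraicClosure F)) =
        LinearMap.toMatrix (Algebra.TensorProduct.basis (AlgebraicClosure F) e)
          (Algebra.TensorProduct.basis (AlgebraicClosure F) e) X := by
      conv_rhs => rw [hτ]
      rw [map_sum]
      refine Finset.sum_congr rfl fun t _ => ?_
      rw [map_smul, LinearMap.toMatrix_baseChange]
    rw [e1, LinearMap.det_toMatrix]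
    exact ((LinearMap.isUnit_iff_isUnit_det _).1 hX3).ne_zero
  obtain ⟨y, hy⟩ := exists_comb τ _ _ hdet
  refine ⟨∑ t ∈ τ, y t • cp (b.coord t) X, ⟨?_, ?_⟩, ?_⟩
  · intro c hc
    rw [Finset.sum_mul, Finset.mul_sum]
    refine Finset.sum_congr rfl fun t _ => ?_
    rw [smul_mul_assoc, mul_smul_comm, (hLef t).1 c hc]
  · intro x z
    rw [LinearMap.sum_apply, LinearMap.sum_apply, map_sum, LinearMap.sum_apply, map_sum,
      ← Finset.sum_add_distrib]
    refine Finset.sum_eq_zero fun t _ => ?_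
    rw [LinearMap.smul_apply, LinearMap.smul_apply, map_smul, LinearMap.smul_apply, map_smul,
      ← smul_add, (hLef t).2, smul_zero]
  · have e1 : (LinearMap.toMatrix e e (∑ t ∈ τ, y t • cp (b.coord t) X)).det ≠ 0 := by
      rw [map_sum]
      simpa only [map_smul] using hy
    rw [LinearMap.det_toMatrix] at e1
    exact (LinearMap.isUnit_iff_isUnit_det _).2 (isUnit_iff_ne_zero.2 e1)

theorem exists_inv_full (ρ : H1Rep Γ F V) (hss : Semisimple ρ) (h3 : NoTypeIII ρ)
    (hfull : ∀ c, CommF ρ c → ∀ γ, c * ρ.T γ = ρ.T γ * c) :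
    ∃ X, Lefschetz ρ X ∧ IsUnit X :=
  exists_inv_full_of ρ hss (hasSys_full ρ h3 hfull) hfull

theorem noTypeIII_res [IsTopologicalGroup Γ] [CompactSpace Γ] (ρ : H1Rep Γ F V)
    (U : OpenSubgroup Γ) (h : NoTypeIII ρ) : NoTypeIII (res ρ U) := by
  obtain ⟨s, s', h1, h2, h3, h4, h5, h6⟩ := h
  exact ⟨s, s', (commF_res ρ U s).mpr h1, h2, h3, h4,
    fun c hc => h5 c ((commF_res ρ U c).mp hc), fun c hc => h6 c ((commF_res ρ U c).mp hc)⟩

theorem exists_inv_of [IsTopologicalGroup Γ] [CompactSpace Γ] (ρ : H1Rep Γ F V)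
    (hss : Semisimple ρ) (h3 : HasSys ρ) : ∃ X, Lefschetz ρ X ∧ IsUnit X := by
  obtain ⟨U, hU⟩ := exists_U0 ρ
  have := topGroup_U U
  have := compact_U U
  obtain ⟨X, hX, hXu⟩ := exists_inv_full_of (res ρ U) (semi_res ρ U hss) ((hasSys_res ρ U).mpr h3)
    (fun c hc γ => (hU γ.1).mp γ.2 c ((commF_res ρ U c).mp hc))
  exact ⟨X, (lefschetz_res ρ U X).mp hX, hXu⟩

theorem exists_inv [IsTopologicalGroup Γ] [CompactSpace Γ] (ρ : H1Rep Γ F V)
    (hss : Semisimple ρ) (h3 : NoTypeIII ρ) : ∃ X, Lefschetz ρ X ∧ IsUnit X :=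
  exists_inv_of ρ hss (hasSys_of_noTypeIII ρ h3)

end Pool.Agent.Lib.MP_640417_ag.Gen4
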