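import Pool.Agent.Lib.MP_640417_ag.Gen4.Main
import Pool.Agent.Lib.MP_640417_ag.Gen4.InvF
import Pool.Agent.Lib.MP_640417_ag.Gen4.DivK
import Pool.Agent.Lib.MP_640417_ag.Lef.Main

/-!
# MP_640417_ag: the local-global principle without factors of type III
-/

set_option autoImplicit false

namespace Pool.Agent.Lib.MP_640417_ag.Gen4

open Matrix Module TensorProduct Pool.Agent.Lib.MP_640417_ag Pool.Agent.Lib.MP_640417_ag.Frob
  Pool.Agent.Lib.MP_640417_ag.Glob Pool.Agent.Lib.MP_640417_ag.Four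
  Pool.Agent.Lib.MP_640417_ag.Ctl Pool.Agent.Lib.MP_640417_ag.Ty Pool.Agent.Lib.MP_640417_ag.Gn
  Pool.Agent.Lib.MP_640417_ag.Dt Pool.Agent.Lib.MP_640417_ag.Lef
  Pool.Agent.Lib.MP_640417_ag.Dfr

/-- All Tate classes of codimension `i` on `V^n` which are killed by the central skew elements are in the
divisor algebra. -/
def DivCond {Γ : Type} [Group Γ] [TopologicalSpace Γ] {F : Type} [Field F]
    [TopologicalSpace F] {V : Type} [AddCommGroup V] [Module F V] [FiniteDimensional F V]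
    (ρ : H1Rep Γ F V) (n i : ℕ) : Prop :=
  ∀ x, TateClass (fun γ => (ρ.T γ).compLeft (Fin n)) ρ.χ i x →
    (∀ z, CentralSkew ρ z → Dv n z x = 0) →
    x ∈ divisorAlg (fun γ => (ρ.T γ).compLeft (Fin n)) ρ.χ

section

variable (l : ℕ) [Fact l.Prime] {Γ : Type} [Group Γ]
    [TopologicalSpace Γ] [IsTopologicalGroup Γ] [CompactSpace Γ] {V : Type} [AddCommGroup V]
    [Module ℚ_[l] V] [FiniteDimensional ℚ_[l] V] (ρ : H1Rep Γ ℚ_[l] V)

/-- the divisor algebra depends only on open subgroups -/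
theorem div_res (U : OpenSubgroup Γ) (n : ℕ) :
    divisorAlg (fun γ : U => ((res ρ U).T γ).compLeft (Fin n)) (res ρ U).χ =
      divisorAlg (fun γ : Γ => (ρ.T γ).compLeft (Fin n)) ρ.χ := by
  unfold divisorAlg
  congr 1
  ext x
  exact tate_resG ρ U n 1 x

theorem lef_of_div {n i : ℕ} (h : DivCond ρ n i) : LefCond ρ n i :=
  fun x hx hz X hX => div_killed ρ n X hX x (h x hx hz)

theorem div_of_lef_of (hsemi : Semisimple ρ) (h3 : HasSys ρ) {n i : ℕ} (h : LefCond ρ n i) :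
    DivCond ρ n i := by
  intro x hx hz
  obtain ⟨U, hU⟩ := exists_U0 ρ
  have := topGroup_U U
  have := compact_U U
  rw [← div_res l ρ U n]
  refine fft_full_of (res ρ U) (semi_res ρ U hsemi) ((hasSys_res ρ U).mpr h3)
    (fun c hc γ => (hU γ.1).mp γ.2 c ((commF_res ρ U c).mp hc)) n (2 * i) x hx.1 ?_
  intro X hX hc
  exact h x hx hz X ((lefschetz_res ρ U X).mp ⟨hc, hX⟩)

theorem div_of_lef (hsemi : Semisimple ρ) (h3 : NoTypeIII ρ) {n i : ℕ} (h : LefCond ρ n i) :
    DivCond ρ n i := div_of_lef_of l ρ hsemi (hasSys_of_noTypeIII ρ h3) h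

/-- **The local-global principle without factors of type III.** -/
theorem tfae_of (hsemi : Semisimple ρ) (h3 : HasSys ρ) :
    List.TFAE [∀ n i, DivCond ρ n i, DivCond ρ 4 2,
      ∀ D : Set Γ, Dense D → ∃ γ ∈ D, Good ρ γ, ∃ γ, Detects ρ γ] := by
  have h0 := tfae_all l ρ hsemi (exists_inv_of ρ hsemi h3)
  tfae_have 1 → 2 := fun h => h 4 2
  tfae_have 2 → 3 := fun h => (h0.out 1 2 rfl rfl).mp (lef_of_div l ρ h)
  tfae_have 3 → 4 := fun h => (h0.out 2 3 rfl rfl).mp h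
  tfae_have 4 → 1 := by
    intro h n i
    have h1 : ∀ n i, LefCond ρ n i := (h0.out 3 0 rfl rfl).mp h
    exact div_of_lef_of l ρ hsemi h3 (h1 n i)
  tfae_finish

theorem tfae_noTypeIII (hsemi : Semisimple ρ) (h3 : NoTypeIII ρ) :
    List.TFAE [∀ n i, DivCond ρ n i, DivCond ρ 4 2,
      ∀ D : Set Γ, Dense D → ∃ γ ∈ D, Good ρ γ, ∃ γ, Detects ρ γ] :=
  tfae_of l ρ hsemi (hasSys_of_noTypeIII ρ h3)

/-- There are no exotic Tate classes if and only if this is so for those which are killed by the central skew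
elements, of codimension two on the fourth power, and the central skew elements kill all Tate classes. -/
theorem noExotic_iff_of (hsemi : Semisimple ρ) (h3 : HasSys ρ) :
    NoExotic ρ ↔ DivCond ρ 4 2 ∧ ∀ n i x,
      TateClass (fun γ => (ρ.T γ).compLeft (Fin n)) ρ.χ i x →
        ∀ z, CentralSkew ρ z → Dv n z x = 0 := by
  constructor
  · intro h
    have h1 : ∀ n i x, TateClass (fun γ => (ρ.T γ).compLeft (Fin n)) ρ.χ i x →
        x ∈ divisorAlg (fun γ => (ρ.T γ).compLeft (Fin n)) ρ.χ := by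
      intro n i x hx
      by_contra h2
      exact h n i x ⟨hx, h2⟩
    exact ⟨fun x hx _ => h1 4 2 x hx, fun n i x hx z hz =>
      div_killed ρ n z ⟨hz.2.1, hz.2.2⟩ x (h1 n i x hx)⟩
  · rintro ⟨h1, h2⟩ n i x hx
    have h4 : ∀ n i, DivCond ρ n i := ((tfae_of l ρ hsemi h3).out 1 0 rfl rfl).mp h1
    exact hx.2 (h4 n i x hx.1 (h2 n i x hx.1))

theorem noExotic_iff (hsemi : Semisimple ρ) (h3 : NoTypeIII ρ) :
    NoExotic ρ ↔ DivCond ρ 4 2 ∧ ∀ n i x,
      TateClass (fun γ => (ρ.T γ).compLeft (Fin n)) ρ.χ i x →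
        ∀ z, CentralSkew ρ z → Dv n z x = 0 :=
  noExotic_iff_of l ρ hsemi (hasSys_of_noTypeIII ρ h3)

end

end Pool.Agent.Lib.MP_640417_ag.Gen4
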