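import Pool.Agent.Lib.MP_640417_ag.Ctl.Main
import Pool.Agent.Lib.MP_640417_ag.Gn.MainG
import Pool.Agent.Lib.MP_640417_ag.Gn.CoordG
import Pool.Agent.Lib.MP_640417_ag.Gn.GoodD
import Pool.Agent.Lib.MP_640417_ag.Gn.ResG
import Pool.Agent.Lib.MP_640417_ag.Dt.MainD

/-!
# MP_640417_ag: the local-global principle for abelian varieties of all types
-/

set_option autoImplicit false

namespace Pool.Agent.Lib.MP_640417_ag.Gen4

open Matrix Module TensorProduct Pool.Agent.Lib.MP_640417_ag Pool.Agent.Lib.MP_640417_ag.Frob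
  Pool.Agent.Lib.MP_640417_ag.Glob Pool.Agent.Lib.MP_640417_ag.Four
  Pool.Agent.Lib.MP_640417_ag.Ctl Pool.Agent.Lib.MP_640417_ag.Ty Pool.Agent.Lib.MP_640417_ag.Gn
  Pool.Agent.Lib.MP_640417_ag.Dt

/-- All Tate classes of codimension `i` on `V^n` which are killed by the central skew elements are killed by
the Lie algebra of the Lefschetz group. -/
def LefCond {Γ : Type} [Group Γ] [TopologicalSpace Γ] {F : Type} [Field F]
    [TopologicalSpace F] {V : Type} [AddCommGroup V] [Module F V] [FiniteDimensional F V]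
    (ρ : H1Rep Γ F V) (n i : ℕ) : Prop :=
  ∀ x, TateClass (fun γ => (ρ.T γ).compLeft (Fin n)) ρ.χ i x →
    (∀ z, CentralSkew ρ z → Dv n z x = 0) → ∀ X, Lefschetz ρ X → Dv n X x = 0

section

variable (l : ℕ) [Fact l.Prime] {Γ : Type} [Group Γ]
    [TopologicalSpace Γ] [IsTopologicalGroup Γ] [CompactSpace Γ] {V : Type} [AddCommGroup V]
    [Module ℚ_[l] V] [FiniteDimensional ℚ_[l] V] (ρ : H1Rep Γ ℚ_[l] V)

theorem norm_l : ‖(l : ℚ_[l])‖ < 1 := by
  rw [Padic.norm_p]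
  exact inv_lt_one_of_one_lt₀ (by exact_mod_cast (Fact.out : l.Prime).one_lt)

theorem l_ne : (l : ℚ_[l]) ≠ 0 := by exact_mod_cast (Fact.out : l.Prime).ne_zero

/-- the Lefschetz Lie algebra in coordinates -/
theorem lef_coord {I : Type} [Fintype I] [DecidableEq I] (e : Basis I ℚ_[l] V)
    (R : MRep Γ ℚ_[l] I) (h1 : ∀ γ, R.M γ = LinearMap.toMatrix e e (ρ.T γ))
    (h3 : ∀ i j, R.J i j = ρ.form (e i) (e j)) (X : Module.End ℚ_[l] V) :
    Lefschetz ρ X ↔ LinearMap.toMatrix e e X ∈ spJ R.J ∧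
      ∀ b, R.InC b → LinearMap.toMatrix e e X * b = b * LinearMap.toMatrix e e X := by
  rw [coord_skew ρ e R h3]
  constructor
  · rintro ⟨h4, h5⟩
    refine ⟨h5, fun b hb => ?_⟩
    obtain ⟨c, rfl⟩ := (LinearMap.toMatrix e e).surjective b
    rw [← LinearMap.toMatrix_mul, ← LinearMap.toMatrix_mul,
      h4 c ((coord_inC ρ e R h1 c).mp hb)]
  · rintro ⟨h5, h4⟩
    refine ⟨fun c hc => (LinearMap.toMatrix e e).injective ?_, h5⟩
    rw [LinearMap.toMatrix_mul, LinearMap.toMatrix_mul,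
      h4 _ ((coord_inC ρ e R h1 c).mpr hc)]

/-- good elements, if everything in the commutant commutes with `Γ` -/
theorem good_of_lef (hsemi : Semisimple ρ)
    (hfull : ∀ c, CommF ρ c → ∀ γ, c * ρ.T γ = ρ.T γ * c)
    (hE : ∃ X, Lefschetz ρ X ∧ IsUnit X) (h : LefCond ρ 4 2) :
    ∃ O : Set Γ, IsOpen O ∧ O.Nonempty ∧ ∀ γ ∈ O, Good ρ γ := by
  obtain ⟨R, h1, h2, h3⟩ := exists_coord ρ (Module.finBasis ℚ_[l] V)
  have hs := coord_semi ρ _ R h1 hsemi
  obtain ⟨X1, hX1, hX1u⟩ := hE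
  have h5 := (lef_coord l ρ _ R h1 h3 X1).mp hX1
  obtain ⟨O, hO, hOn, hOg⟩ := exists_open R (AlgebraicClosure ℚ_[l]) l (norm_l l) hs
    (full_coord ρ _ R h1 hfull) (by
      intro X hX hXc
      obtain ⟨Y, rfl⟩ := (LinearMap.toMatrix (Module.finBasis ℚ_[l] V)
        (Module.finBasis ℚ_[l] V)).surjective X
      have hY := (lef_coord l ρ _ R h1 h3 Y).mpr ⟨hX, hXc⟩
      exact mem_of_four l ρ _ R h1 h2 h3 hs Y hY.2 fun x hx hz => h x hx hz Y hY)
    h5.1 h5.2 (by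
      have h6 := (LinearMap.toMatrixAlgEquiv (Module.finBasis ℚ_[l] V)).toRingEquiv.toRingHom.isUnit_map hX1u
      exact ((Matrix.isUnit_iff_isUnit_det _).mp h6).ne_zero)
  exact ⟨O, hO, hOn, fun γ hγ => (good_iff ρ _ R h1 h2 h3 γ).mpr (hOg γ hγ)⟩

/-- one detecting element -/
theorem lef_of_detects (hsemi : Semisimple ρ)
    (hfull : ∀ c, CommF ρ c → ∀ γ, c * ρ.T γ = ρ.T γ * c) {γ : Γ} (h : Detects ρ γ) (n i : ℕ) :
    LefCond ρ n i := by
  intro x hx hz X hX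
  obtain ⟨R, h1, h2, h3⟩ := exists_coord ρ (Module.finBasis ℚ_[l] V)
  have hs := coord_semi ρ _ R h1 hsemi
  have h5 := (lef_coord l ρ _ R h1 h3 X).mp hX
  exact kills_of_mem l ρ _ R h1 h2 h3 X (mem_of_detects R l (norm_l l) (l_ne l) hs
    (full_coord ρ _ R h1 hfull) (AlgebraicClosure ℚ_[l])
    ((detects_iff ρ _ R h1 h2 h3 γ).mp h) h5.1 h5.2) n i x hx hz

theorem lef_res (U : OpenSubgroup Γ) (n i : ℕ) : LefCond (res ρ U) n i ↔ LefCond ρ n i := by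
  unfold LefCond
  refine forall_congr' fun x => ?_
  rw [tate_resG ρ U n i x]
  simp only [central_res, lefschetz_res]

/-- **The local-global principle, all types.** -/
theorem tfae_all (hsemi : Semisimple ρ) (hE : ∃ X, Lefschetz ρ X ∧ IsUnit X) :
    List.TFAE [∀ n i, LefCond ρ n i, LefCond ρ 4 2,
      ∀ D : Set Γ, Dense D → ∃ γ ∈ D, Good ρ γ, ∃ γ, Detects ρ γ] := by
  tfae_have 1 → 2 := fun h => h 4 2
  tfae_have 2 → 3 := by
    intro h D hD
    obtain ⟨U, hU⟩ := exists_U0 ρ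
    have := topGroup_U U
    have := compact_U U
    obtain ⟨O, hO, ⟨γ0, hγ0⟩, hOg⟩ := good_of_lef l (res ρ U) (semi_res ρ U hsemi)
      (fun c hc γ => (hU γ.1).mp γ.2 c ((commF_res ρ U c).mp hc))
      (by
        obtain ⟨X, hX, hXu⟩ := hE
        exact ⟨X, (lefschetz_res ρ U X).mpr hX, hXu⟩) ((lef_res l ρ U 4 2).mpr h)
    have hO' : IsOpen ((Subtype.val : U → Γ) '' O) := U.isOpen.isOpenMap_subtype_val O hO
    obtain ⟨γ, ⟨γ', hγ', rfl⟩, hγD⟩ := hD.inter_open_nonempty _ hO' ⟨_, γ0, hγ0, rfl⟩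
    exact ⟨_, hγD, (goodG_res ρ U γ').mp (hOg γ' hγ')⟩
  tfae_have 3 → 4 := by
    intro h
    obtain ⟨γ, -, hγ⟩ := h Set.univ dense_univ
    obtain ⟨R, h1, h2, h3⟩ := exists_coord ρ (Module.finBasis ℚ_[l] V)
    have hs := coord_semi ρ _ R h1 hsemi
    exact ⟨γ, (detects_iff ρ _ R h1 h2 h3 γ).mpr
      (detects_of_goodM R _ hs ((good_iff ρ _ R h1 h2 h3 γ).mp hγ))⟩
  tfae_have 4 → 1 := by
    rintro ⟨γ, hγ⟩ n i
    obtain ⟨U, hU⟩ := exists_U0 ρ
    have := topGroup_U U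
    have := compact_U U
    have hγU : γ ∈ U := (hU γ).mpr hγ.1
    exact (lef_res l ρ U n i).mp (lef_of_detects l (res ρ U) (semi_res ρ U hsemi)
      (fun c hc γ' => (hU γ'.1).mp γ'.2 c ((commF_res ρ U c).mp hc))
      (γ := ⟨γ, hγU⟩) ((detectsG_res ρ U ⟨γ, hγU⟩).mpr hγ) n i)
  tfae_finish

end

end Pool.Agent.Lib.MP_640417_ag.Gen4
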