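import Pool.Agent.Lib.MP_640417_ag.Lef.Ext
import Pool.Agent.Lib.MP_640417_ag.Four.Darboux

/-!
# MP_640417_ag, Gen4, module InvK (200 lines): an invertible skew endomorphism over `K`

* `exists_skew_inv`: let `e` be an idempotent, self-adjoint for the alternating nondegenerate form. The range of `e` with the
  restricted form is an alternating nondegenerate space; take a symplectic basis `p_i, q_i` (`Four/Darboux.lean`; or by induction on
  the dimension: a hyperbolic plane and its orthogonal complement) and `Y = 1` on the `p_i`, `-1` on the `q_i`, `Y = Y e`.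
* `inv_K`: let `R = {j | r j = j}`. For `j ∈ R` (then `st j ∈ R` as `r (st j) = st (r j)`): if `st j = j` take `Y_j` from `exists_skew_inv`
  for `ε j` (self-adjoint by `hS.adj`), if `j < st j` `Y_j = ε j`, if `st j < j` `Y_j = - ε j`. `Y_j ε_j = ε_j Y_j = Y_j`, `Y_j * Y_j = ε_j`, and the
  adjoint of `Y_j` is `- Y_(st j)`. `Y = ∑ j ∈ R, Y_j` is skew, commutes with all `ε (r j)`, `Y * Y = ∑ j ∈ R, ε j =: f`, and
  `f * v j = v j` (`v j = ε (r j) * v j`, `r (r j) = r j`). `X = ext u v Y` is skew (`ext_skew`) and commutes with `C` (`ext_comm`),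
  and `X * X = ∑ j, u j * Y * Y * v j = ∑ j, u j * v j = ∑ j, ε j = 1` (`v_ext`, `h.uv`, `hS.sum`).
-/

set_option autoImplicit false

namespace Pool.Agent.Lib.MP_640417_ag.Gen4

open Module Pool.Agent.Lib.MP_640417_ag.Four Pool.Agent.Lib.MP_640417_ag.Lef

variable {K V : Type} [Field K] [CharZero K] [AddCommGroup V] [Module K V] [FiniteDimensional K V]
  {form : LinearMap.BilinForm K V}

theorem exists_skew_inv (halt : ∀ x, form x x = 0) (hnd : ∀ x, (∀ y, form x y = 0) → x = 0)
    (e : Module.End K V) (he : e * e = e) (hadj : ∀ x y, form (e x) y = form x (e y)) :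
    ∃ Y : Module.End K V, Skew form Y ∧ e * Y = Y ∧ Y * e = Y ∧ Y * Y = e := by
  have hee : ∀ x, e (e x) = e x := fun x => congrArg (fun g : Module.End K V => g x) he
  have hanti := fun x y => Darboux_anti halt x y
  obtain ⟨m, a, b, -, ha, hb, -, -, hab, haa, hbb, hspan⟩ :=
    Darboux_claim form halt Bool id (fun t => if t then e else 1 - e) (fun _ => rfl)
      (by simp)
      (by
        intro t
        cases t
        · simp only [Bool.false_eq_true, if_false, mul_sub, sub_mul, mul_one, one_mul, he]
          abel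
        · simpa using he)
      (by
        intro t t' htt
        have h1 : (1 - e) * e = 0 := by rw [sub_mul, one_mul, he, sub_self]
        have h2 : e * (1 - e) = 0 := by rw [mul_sub, mul_one, he, sub_self]
        cases t <;> cases t'
        · exact absurd rfl htt
        · simpa using h1
        · simpa using h2
        · exact absurd rfl htt)
      (by
        intro t x y
        cases t
        · simp [LinearMap.sub_apply, map_sub, hadj]
        · simpa using hadj x y)
      (finrank K (LinearMap.range e)) (LinearMap.range e) rfl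
      (by
        rintro t _ ⟨v, rfl⟩
        cases t
        · refine ⟨0, ?_⟩
          simp [hee]
        · exact ⟨e v, by simp⟩)
      (by
        rintro _ ⟨x, rfl⟩ h
        apply hnd
        intro y
        have h1 := h (e y) ⟨y, rfl⟩
        rw [← hadj, hee] at h1
        exact h1)
  have hea : ∀ i, e (a i) = a i := by
    intro i
    obtain ⟨w, hw⟩ := ha i
    rw [← hw, hee]
  have heb : ∀ i, e (b i) = b i := by
    intro i
    obtain ⟨w, hw⟩ := hb i
    rw [← hw, hee]
  have hba : ∀ i j, form (b i) (a j) = -(if j = i then 1 else 0) := by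
    intro i j
    rw [hanti (a j) (b i), hab]
  let Y : Module.End K V := ∑ i, ((form.flip (b i)).smulRight (a i) +
    (form.flip (a i)).smulRight (b i))
  let E : Module.End K V := ∑ i, ((form.flip (b i)).smulRight (a i) -
    (form.flip (a i)).smulRight (b i))
  have hY : ∀ x, Y x = ∑ i, (form x (b i) • a i + form x (a i) • b i) := by
    intro x
    simp only [Y, LinearMap.sum_apply, LinearMap.add_apply, LinearMap.smulRight_apply]
    rfl
  have hE : ∀ x, E x = ∑ i, (form x (b i) • a i - form x (a i) • b i) := by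
    intro x
    simp only [E, LinearMap.sum_apply, LinearMap.sub_apply, LinearMap.smulRight_apply]
    rfl
  have hYa : ∀ j, Y (a j) = a j := by
    intro j
    rw [hY, Finset.sum_eq_single j]
    · rw [hab, haa, if_pos rfl, one_smul, zero_smul, add_zero]
    · intro i _ hi
      rw [hab, haa, if_neg (Ne.symm hi), zero_smul, zero_smul, add_zero]
    · intro h
      exact absurd (Finset.mem_univ _) h
  have hYb : ∀ j, Y (b j) = -b j := by
    intro j
    rw [hY, Finset.sum_eq_single j]
    · rw [hba, hbb, if_pos rfl, neg_smul, one_smul, zero_smul, zero_add]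
    · intro i _ hi
      rw [hba, hbb, if_neg hi, neg_zero, zero_smul, zero_smul, add_zero]
    · intro h
      exact absurd (Finset.mem_univ _) h
  have hEa : ∀ j, E (a j) = a j := by
    intro j
    rw [hE, Finset.sum_eq_single j]
    · rw [hab, haa, if_pos rfl, one_smul, zero_smul, sub_zero]
    · intro i _ hi
      rw [hab, haa, if_neg (Ne.symm hi), zero_smul, zero_smul, sub_zero]
    · intro h
      exact absurd (Finset.mem_univ _) h
  have hEb : ∀ j, E (b j) = b j := by
    intro j
    rw [hE, Finset.sum_eq_single j]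
    · rw [hba, hbb, if_pos rfl, neg_smul, one_smul, zero_smul, zero_sub, neg_neg]
    · intro i _ hi
      rw [hba, hbb, if_neg hi, neg_zero, zero_smul, zero_smul, sub_zero]
    · intro h
      exact absurd (Finset.mem_univ _) h
  have hEN : ∀ w ∈ Submodule.span K (Set.range a ∪ Set.range b), E w = w := by
    intro w hw
    induction hw using Submodule.span_induction with
    | mem x hx =>
      rcases hx with ⟨j, rfl⟩ | ⟨j, rfl⟩
      · exact hEa j
      · exact hEb j
    | zero => exact map_zero _
    | add x y _ _ h1 h2 => rw [map_add, h1, h2]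
    | smul t x _ h1 => rw [map_smul, h1]
  refine ⟨Y, ?_, ?_, ?_, ?_⟩
  · intro x y
    rw [hY, hY, map_sum, LinearMap.sum_apply, map_sum, ← Finset.sum_add_distrib]
    apply Finset.sum_eq_zero
    intro i _
    simp only [map_add, map_smul, LinearMap.add_apply, LinearMap.smul_apply, smul_eq_mul]
    rw [hanti (a i) y, hanti (b i) y]
    ring
  · apply LinearMap.ext
    intro x
    rw [Module.End.mul_apply, hY, map_sum]
    refine Finset.sum_congr rfl fun i _ => ?_
    rw [map_add, map_smul, map_smul, hea, heb]
  · apply LinearMap.ext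
    intro x
    rw [Module.End.mul_apply, hY, hY]
    refine Finset.sum_congr rfl fun i _ => ?_
    rw [hadj, hadj, hea, heb]
  · apply LinearMap.ext
    intro x
    have h1 : E (e x) = e x := hEN _ (hspan ⟨x, rfl⟩)
    have h2 : Y (Y x) = E (e x) := by
      rw [hY x, map_sum, hE]
      refine Finset.sum_congr rfl fun i _ => ?_
      rw [map_add, map_smul, map_smul, hYa, hYb, hadj, hadj, hea, heb, smul_neg, sub_eq_add_neg]
    rw [Module.End.mul_apply, h2, h1]

theorem inv_K {C : Subalgebra K (Module.End K V)} {N : ℕ} {st : Fin N → Fin N}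
    {ε : Fin N → Module.End K V} {r : Fin N → Fin N} {u v : Fin N → Module.End K V}
    (halt : ∀ x, form x x = 0) (hnd : ∀ x, (∀ y, form x y = 0) → x = 0)
    (hS : Sys form C N st ε) (h : UV form C N st ε r u v) :
    ∃ X : Module.End K V, Skew form X ∧ (∀ c ∈ C, X * c = c * X) ∧ IsUnit X := by
  have h0 : ∀ j, st j = j → ∃ Y : Module.End K V, Skew form Y ∧ ε j * Y = Y ∧ Y * ε j = Y ∧
      Y * Y = ε j := by
    intro j hj
    apply exists_skew_inv halt hnd _ (hS.idem j)
    intro x y
    rw [hS.adj, hj]
  choose Z hZ1 hZ2 hZ3 hZ4 using h0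
  let Y : Fin N → Module.End K V := fun j =>
    if hj : st j = j then Z j hj else if j < st j then ε j else -ε j
  have hY0 : ∀ j (hj : st j = j), Y j = Z j hj := fun j hj => dif_pos hj
  have hY1 : ∀ j, st j ≠ j → j < st j → Y j = ε j := fun j hj h1 => by
    simp only [Y]
    rw [dif_neg hj, if_pos h1]
  have hY2 : ∀ j, st j ≠ j → ¬ j < st j → Y j = -ε j := fun j hj h1 => by
    simp only [Y]
    rw [dif_neg hj, if_neg h1]
  have hEY : ∀ j, ε j * Y j = Y j := by
    intro j
    by_cases hj : st j = j
    · rw [hY0 j hj, hZ2]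
    · by_cases h1 : j < st j
      · rw [hY1 j hj h1, hS.idem]
      · rw [hY2 j hj h1, mul_neg, hS.idem]
  have hYE : ∀ j, Y j * ε j = Y j := by
    intro j
    by_cases hj : st j = j
    · rw [hY0 j hj, hZ3]
    · by_cases h1 : j < st j
      · rw [hY1 j hj h1, hS.idem]
      · rw [hY2 j hj h1, neg_mul, hS.idem]
  have hYY : ∀ j, Y j * Y j = ε j := by
    intro j
    by_cases hj : st j = j
    · rw [hY0 j hj, hZ4]
    · by_cases h1 : j < st j
      · rw [hY1 j hj h1, hS.idem]
      · rw [hY2 j hj h1, neg_mul_neg, hS.idem]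
  have hadj : ∀ j x y, form (Y j x) y = -form x (Y (st j) y) := by
    intro j x y
    by_cases hj : st j = j
    · rw [hj, hY0 j hj]
      exact eq_neg_of_add_eq_zero_left (hZ1 j hj x y)
    · have hj' : st (st j) ≠ st j := by
        rw [hS.inv]
        exact fun h => hj h.symm
      by_cases h1 : j < st j
      · have h2 : ¬ st j < st (st j) := by
          rw [hS.inv]
          exact not_lt.2 h1.le
        rw [hY1 j hj h1, hY2 _ hj' h2, hS.adj, LinearMap.neg_apply, map_neg, neg_neg]
      · have h2 : st j < st (st j) := by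
          rw [hS.inv]
          exact lt_of_le_of_ne (not_lt.1 h1) hj
        rw [hY2 j hj h1, hY1 _ hj' h2, LinearMap.neg_apply, map_neg, LinearMap.neg_apply, hS.adj]
  have horth : ∀ j k, j ≠ k → Y j * Y k = 0 := by
    intro j k hjk
    rw [← hYE j, ← hEY k, mul_assoc, ← mul_assoc (ε j), hS.orth j k hjk, zero_mul, mul_zero]
  let R : Finset (Fin N) := Finset.univ.filter (fun j => r j = j)
  have hR : ∀ j, j ∈ R ↔ r j = j := by
    intro j
    simp [R]
  let W : Module.End K V := ∑ j ∈ R, Y j
  have hW : W = ∑ j ∈ R, Y j := rfl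
  have hRst : ∀ j ∈ R, st j ∈ R := by
    intro j hj
    rw [hR] at hj ⊢
    rw [h.rst, hj]
  have hskew : Skew form W := by
    intro x y
    have e1 : form (W x) y = ∑ j ∈ R, form (Y j x) y := by
      rw [hW, LinearMap.sum_apply, map_sum, LinearMap.sum_apply]
    have e2 : form x (W y) = ∑ j ∈ R, form x (Y j y) := by
      rw [hW, LinearMap.sum_apply, map_sum]
    have e3 : ∑ j ∈ R, form x (Y (st j) y) = ∑ j ∈ R, form x (Y j y) := by
      refine Finset.sum_nbij' st st hRst hRst (fun j _ => hS.inv j) (fun j _ => hS.inv j)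
        (fun j _ => rfl)
    rw [e1, e2, ← e3, ← Finset.sum_add_distrib]
    apply Finset.sum_eq_zero
    intro j _
    rw [hadj, neg_add_cancel]
  have hrR : ∀ j, r j ∈ R := fun j => (hR _).2 (h.rr j)
  have hWε : ∀ j ∈ R, W * ε j = Y j := by
    intro k hk
    rw [hW, Finset.sum_mul, Finset.sum_eq_single k]
    · exact hYE k
    · intro j _ hjk
      rw [← hYE j, mul_assoc, hS.orth j k hjk, mul_zero]
    · intro h3
      exact absurd hk h3
  have hεW : ∀ j ∈ R, ε j * W = Y j := by
    intro k hk
    rw [hW, Finset.mul_sum, Finset.sum_eq_single k]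
    · exact hEY k
    · intro j _ hjk
      rw [← hEY j, ← mul_assoc, hS.orth k j hjk.symm, zero_mul]
    · intro h3
      exact absurd hk h3
  have hcomm : ∀ j, W * ε (r j) = ε (r j) * W := by
    intro j
    rw [hWε _ (hrR j), hεW _ (hrR j)]
  have hWWv : ∀ j, W * W * v j = v j := by
    intro j
    rw [← h.ev j, mul_assoc, ← mul_assoc W (ε (r j)), hWε _ (hrR j), ← hEY (r j), mul_assoc,
      ← mul_assoc W, hWε _ (hrR j), ← mul_assoc, hYY]
  refine ⟨ext u v W, ext_skew hS h hskew, fun c hc => ext_comm hS h hcomm hc, ?_⟩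
  have hsq : ext u v W * ext u v W = 1 := by
    have e1 : ext u v W * ext u v W = ∑ j, u j * W * (v j * ext u v W) := by
      conv_lhs => rw [show ext u v W * ext u v W = (∑ j, u j * W * v j) * ext u v W from rfl]
      rw [Finset.sum_mul]
      exact Finset.sum_congr rfl fun j _ => mul_assoc _ _ _
    rw [e1, ← hS.sum]
    refine Finset.sum_congr rfl fun j _ => ?_
    rw [v_ext hS h hcomm, mul_assoc, ← mul_assoc W W, hWWv, h.uv]
  exact ⟨⟨_, _, hsq, hsq⟩, rfl⟩

end Pool.Agent.Lib.MP_640417_ag.Gen4
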